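import Mathlib
import Pool.Agent.R35.SignPatterns

set_option autoImplicit false

/-!
# There are veto interval graphs which are not midpoint veto interval graphs
-/

namespace Pool.Agent.Results.MP_c8a11a_co.CountingSeparation

open Finset

/-- A family of veto intervals (l a, v a, r a), l a < v a < r a, pairwise distinct. -/
structure VetoIntervals (V : Type) where
  /-- left endpoints -/
  l : V → ℝ
  /-- veto marks -/
  v : V → ℝ
  /-- right endpoints -/
  r : V → ℝ
  /-- the veto mark is to the right of the left endpoint -/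
  lv : ∀ a, l a < v a
  /-- the veto mark is to the left of the right endpoint -/
  vr : ∀ a, v a < r a
  /-- distinct vertices have distinct veto intervals -/
  inj : ∀ a b, l a = l b → v a = v b → r a = r b → a = b

/-- The adjacency condition of veto interval representations. -/
def VetoIntervals.Joined {V : Type} (I : VetoIntervals V) (a b : V) : Prop :=
  (I.v a < I.l b ∧ I.l b < I.r a ∧ I.r a < I.v b) ∨
    (I.v b < I.l a ∧ I.l a < I.r b ∧ I.r b < I.v a)

/-- I is a veto interval representation of G. -/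
def VetoIntervals.Represents {V : Type} (I : VetoIntervals V) (G : SimpleGraph V) : Prop :=
  ∀ a b, a ≠ b → (G.Adj a b ↔ I.Joined a b)

/-- Veto interval graphs. -/
def IsVI {V : Type} (G : SimpleGraph V) : Prop := ∃ I : VetoIntervals V, I.Represents G

/-- Midpoint veto interval graphs. -/
def IsMVI {V : Type} (G : SimpleGraph V) : Prop :=
  ∃ I : VetoIntervals V, (∀ a, I.v a = (I.l a + I.r a) / 2) ∧ I.Represents G

/-! ## Counting midpoint graphs -/

/-- the linear forms -/
def form {V : Type} [DecidableEq V] : (V × V) × Fin 3 → V ⊕ V → ℝ :=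
  fun i z => match i with
    | ((a, b), 0) => 2 * (if z = Sum.inl b then 1 else 0) - (if z = Sum.inl a then 1 else 0) -
        (if z = Sum.inr a then 1 else 0)
    | ((a, b), 1) => (if z = Sum.inr a then 1 else 0) - (if z = Sum.inl b then 1 else 0)
    | ((a, b), 2) => (if z = Sum.inl b then 1 else 0) + (if z = Sum.inr b then 1 else 0) -
        2 * (if z = Sum.inr a then 1 else 0)

theorem form_eval {V : Type} [Fintype V] [DecidableEq V] (y : V ⊕ V → ℝ) (a b : V) :
    (∑ z, form ((a, b), 0) z * y z = 2 * y (Sum.inl b) - y (Sum.inl a) - y (Sum.inr a)) ∧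
    (∑ z, form ((a, b), 1) z * y z = y (Sum.inr a) - y (Sum.inl b)) ∧
    (∑ z, form ((a, b), 2) z * y z = y (Sum.inl b) + y (Sum.inr b) - 2 * y (Sum.inr a)) := by
  refine ⟨?_, ?_, ?_⟩
  · simp only [form, sub_mul, mul_assoc, ite_mul, one_mul, zero_mul, Finset.sum_sub_distrib,
      ← Finset.mul_sum, Finset.sum_ite_eq', Finset.mem_univ, if_true]
  · simp only [form, sub_mul, ite_mul, one_mul, zero_mul, Finset.sum_sub_distrib,
      Finset.sum_ite_eq', Finset.mem_univ, if_true]
  · simp only [form, sub_mul, add_mul, mul_assoc, ite_mul, one_mul, zero_mul,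
      Finset.sum_sub_distrib, Finset.sum_add_distrib, ← Finset.mul_sum, Finset.sum_ite_eq',
      Finset.mem_univ, if_true]

/-- If all graphs of an injective family are midpoint graphs, the family is small. -/
theorem count_mvi {V T : Type} [Fintype V] [DecidableEq V] [Fintype T] (G : T → SimpleGraph V)
    (hG : Function.Injective G) (h : ∀ t, IsMVI (G t)) :
    Fintype.card T ≤ ∑ k ∈ Finset.Iic (Fintype.card (V ⊕ V)),
      (Fintype.card ((V × V) × Fin 3)).choose k := by
  classical
  choose I hmid hrep using h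
  let y : T → V ⊕ V → ℝ := fun t => Sum.elim (I t).l (I t).r
  let pat : T → Finset ((V × V) × Fin 3) := fun t =>
    Finset.univ.filter (fun i => 0 < ∑ z, form i z * y t z)
  have hmem : ∀ t i, i ∈ pat t ↔ 0 < ∑ z, form i z * y t z := by
    intro t i; simp [pat]
  have hj : ∀ t a b, (I t).Joined a b ↔
      ((((a, b), 0) ∈ pat t ∧ ((a, b), 1) ∈ pat t ∧ ((a, b), 2) ∈ pat t) ∨
      (((b, a), 0) ∈ pat t ∧ ((b, a), 1) ∈ pat t ∧ ((b, a), 2) ∈ pat t)) := by
    intro t a b
    simp only [hmem]
    rw [(form_eval (y t) a b).1, (form_eval (y t) a b).2.1, (form_eval (y t) a b).2.2,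
      (form_eval (y t) b a).1, (form_eval (y t) b a).2.1, (form_eval (y t) b a).2.2]
    simp only [y, Sum.elim_inl, Sum.elim_inr, VetoIntervals.Joined]
    rw [hmid t a, hmid t b]
    constructor
    · rintro (⟨h1, h2, h3⟩ | ⟨h1, h2, h3⟩)
      · left; refine ⟨?_, ?_, ?_⟩ <;> linarith
      · right; refine ⟨?_, ?_, ?_⟩ <;> linarith
    · rintro (⟨h1, h2, h3⟩ | ⟨h1, h2, h3⟩)
      · left; refine ⟨?_, ?_, ?_⟩ <;> linarith
      · right; refine ⟨?_, ?_, ?_⟩ <;> linarith
  have hinj : Function.Injective pat := by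
    intro t t' htt
    apply hG
    ext a b
    by_cases hab : a = b
    · subst hab; simp
    · rw [hrep t a b hab, hrep t' a b hab, hj, hj, htt]
  have h1 := Pool.Agent.R35.SignPatterns.card_patterns form (Finset.univ.image pat) (by
    intro A hA
    rw [Finset.mem_image] at hA
    obtain ⟨t, -, rfl⟩ := hA
    exact ⟨y t, hmem t⟩)
  rwa [Finset.card_image_of_injective _ hinj, Finset.card_univ] at h1

/-! ## Many veto interval graphs -/

section many

variable (M : ℕ)

/-- vertices: two families of reference vertices and the free vertices -/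
abbrev W := (Fin (3 * M) ⊕ Fin (3 * M)) ⊕ Fin (24 * M)

/-- spacing -/
def sp : ℕ := 24 * M + 2

/-- a large number -/
def big : ℕ := 3 * M * sp M

/-- position of a free endpoint in cell p, for the free vertex j -/
def pos (p : ℕ) (j : Fin (24 * M)) : ℕ := p * sp M + (j.val + 1)

theorem lt_pos_iff (p i : ℕ) (j : Fin (24 * M)) : pos M p j < i * sp M ↔ p < i := by
  unfold pos
  have hj : j.val + 1 < sp M := by unfold sp; omega
  constructor
  · intro h
    by_contra hcon
    push Not at hcon
    have := Nat.mul_le_mul_right (sp M) hcon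
    omega
  · intro h
    have h1 : (p + 1) * sp M ≤ i * sp M := Nat.mul_le_mul_right _ h
    rw [Nat.add_mul, one_mul] at h1
    omega

theorem pos_lt_iff (p i : ℕ) (j : Fin (24 * M)) : i * sp M < pos M p j ↔ i ≤ p := by
  unfold pos
  have hj : j.val + 1 < sp M := by unfold sp; omega
  constructor
  · intro h
    by_contra hcon
    push Not at hcon
    have h1 : (p + 1) * sp M ≤ i * sp M := Nat.mul_le_mul_right _ hcon
    rw [Nat.add_mul, one_mul] at h1
    omega
  · intro h
    have := Nat.mul_le_mul_right (sp M) h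
    omega

theorem pos_lt_pos {p q : ℕ} (h : p < q) (j : Fin (24 * M)) : pos M p j < pos M q j := by
  unfold pos
  have h1 : (p + 1) * sp M ≤ q * sp M := Nat.mul_le_mul_right _ h
  rw [Nat.add_mul, one_mul] at h1
  have : 0 < sp M := by unfold sp; omega
  omega

theorem pos_lt_big {p : ℕ} (h : p < 3 * M) (j : Fin (24 * M)) : pos M p j < big M := by
  rw [big, lt_pos_iff]; exact h

theorem pos_inj {p p' : ℕ} {j j' : Fin (24 * M)} (h : pos M p j = pos M p' j') : j = j' := by
  unfold pos at h
  have hj : j.val + 1 < sp M := by unfold sp; omega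
  have hj' : j'.val + 1 < sp M := by unfold sp; omega
  have h1 : (p * sp M + (j.val + 1)) % sp M = (p' * sp M + (j'.val + 1)) % sp M := by rw [h]
  rw [Nat.mul_add_mod_self_right, Nat.mul_add_mod_self_right, Nat.mod_eq_of_lt hj,
    Nat.mod_eq_of_lt hj'] at h1
  exact Fin.ext (by omega)

/-- the representation for a table t of triples -/
noncomputable def rep (t : Fin (24 * M) → Fin M × Fin M × Fin M) : VetoIntervals (W M) where
  l := Sum.elim (Sum.elim (fun i => ((i.val * sp M : ℕ) : ℝ)) (fun _ => -(big M : ℝ) - 1))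
    (fun j => ((pos M (t j).1.val j : ℕ) : ℝ))
  v := Sum.elim (Sum.elim (fun _ => (big M : ℝ) + 1) (fun _ => -(big M : ℝ)))
    (fun j => ((pos M (M + (t j).2.1.val) j : ℕ) : ℝ))
  r := Sum.elim (Sum.elim (fun _ => (big M : ℝ) + 2) (fun i => ((i.val * sp M : ℕ) : ℝ) + 1 / 2))
    (fun j => ((pos M (2 * M + (t j).2.2.val) j : ℕ) : ℝ))
  lv := by
    rintro ((i | i) | j)
    · simp only [Sum.elim_inl]
      have h1 : i.val * sp M ≤ big M := by
        unfold big; exact Nat.mul_le_mul_right _ i.isLt.le
      have h2 : ((i.val * sp M : ℕ) : ℝ) ≤ (big M : ℝ) := by exact_mod_cast h1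
      linarith
    · simp only [Sum.elim_inl, Sum.elim_inr]
      linarith
    · simp only [Sum.elim_inr]
      exact_mod_cast pos_lt_pos M (by have := (t j).1.isLt; omega) j
  vr := by
    rintro ((i | i) | j)
    · simp only [Sum.elim_inl]
      linarith
    · simp only [Sum.elim_inl, Sum.elim_inr]
      have h1 : (0 : ℝ) ≤ ((i.val * sp M : ℕ) : ℝ) := Nat.cast_nonneg _
      have h2 : (0 : ℝ) ≤ (big M : ℝ) := Nat.cast_nonneg _
      linarith
    · simp only [Sum.elim_inr]
      exact_mod_cast pos_lt_pos M (by have := (t j).2.1.isLt; omega) j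
  inj := by
    have hs : 0 < sp M := by unfold sp; omega
    have hb : (0 : ℝ) ≤ (big M : ℝ) := Nat.cast_nonneg _
    rintro ((i | i) | j) ((i' | i') | j') h1 h2 h3
    · simp only [Sum.elim_inl] at h1
      have h4 : i.val * sp M = i'.val * sp M := by exact_mod_cast h1
      have h5 := Nat.eq_of_mul_eq_mul_right hs h4
      rw [Fin.ext h5]
    · simp only [Sum.elim_inl, Sum.elim_inr] at h2; linarith
    · simp only [Sum.elim_inl, Sum.elim_inr] at h2
      have h4 : pos M (M + (t j').2.1.val) j' < big M :=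
        pos_lt_big M (by have := (t j').2.1.isLt; omega) j'
      have h5 : ((pos M (M + (t j').2.1.val) j' : ℕ) : ℝ) < (big M : ℝ) := by exact_mod_cast h4
      linarith
    · simp only [Sum.elim_inl, Sum.elim_inr] at h2; linarith
    · simp only [Sum.elim_inl, Sum.elim_inr] at h3
      have h3' : ((i.val * sp M : ℕ) : ℝ) = ((i'.val * sp M : ℕ) : ℝ) := by linarith
      have h4 : i.val * sp M = i'.val * sp M := by exact_mod_cast h3'
      have h5 := Nat.eq_of_mul_eq_mul_right hs h4
      rw [Fin.ext h5]
    · simp only [Sum.elim_inl, Sum.elim_inr] at h2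
      have h5 : (0 : ℝ) < ((pos M (M + (t j').2.1.val) j' : ℕ) : ℝ) := by
        have : 0 < pos M (M + (t j').2.1.val) j' := by unfold pos; omega
        exact_mod_cast this
      linarith
    · simp only [Sum.elim_inl, Sum.elim_inr] at h2
      have h4 : pos M (M + (t j).2.1.val) j < big M :=
        pos_lt_big M (by have := (t j).2.1.isLt; omega) j
      have h5 : ((pos M (M + (t j).2.1.val) j : ℕ) : ℝ) < (big M : ℝ) := by exact_mod_cast h4
      linarith
    · simp only [Sum.elim_inl, Sum.elim_inr] at h2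
      have h5 : (0 : ℝ) < ((pos M (M + (t j).2.1.val) j : ℕ) : ℝ) := by
        have : 0 < pos M (M + (t j).2.1.val) j := by unfold pos; omega
        exact_mod_cast this
      linarith
    · simp only [Sum.elim_inr] at h1
      have h4 : pos M (t j).1.val j = pos M (t j').1.val j' := by exact_mod_cast h1
      rw [pos_inj M h4]

/-- the graph of the table t -/
def graph (t : Fin (24 * M) → Fin M × Fin M × Fin M) : SimpleGraph (W M) where
  Adj a b := a ≠ b ∧ (rep M t).Joined a b
  symm := ⟨fun _ _ h => ⟨h.1.symm, h.2.symm⟩⟩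
  loopless := ⟨fun _ h => h.1 rfl⟩

theorem graph_vi (t : Fin (24 * M) → Fin M × Fin M × Fin M) : IsVI (graph M t) :=
  ⟨rep M t, fun _ _ hab => ⟨fun h => h.2, fun h => ⟨hab, h⟩⟩⟩

/-- adjacency of a free vertex to the first family -/
theorem adj_first (t : Fin (24 * M) → Fin M × Fin M × Fin M) (j : Fin (24 * M))
    (i : Fin (3 * M)) : (graph M t).Adj (Sum.inr j) (Sum.inl (Sum.inl i)) ↔
      M + (t j).2.1.val < i.val ∧ i.val ≤ 2 * M + (t j).2.2.val := by
  have hb1 : pos M (2 * M + (t j).2.2.val) j < big M :=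
    pos_lt_big M (by have := (t j).2.2.isLt; omega) j
  have hb2 : ((pos M (2 * M + (t j).2.2.val) j : ℕ) : ℝ) < (big M : ℝ) := by exact_mod_cast hb1
  have hb3 : ((pos M (t j).1.val j : ℕ) : ℝ) < (big M : ℝ) := by
    exact_mod_cast pos_lt_big M (by have := (t j).1.isLt; omega) j
  unfold graph VetoIntervals.Joined
  simp only [rep, Sum.elim_inl, Sum.elim_inr]
  rw [← lt_pos_iff M (M + (t j).2.1.val) i.val j, ← pos_lt_iff M (2 * M + (t j).2.2.val) i.val j]
  constructor
  · rintro ⟨-, ⟨h1, h2, h3⟩ | ⟨h1, h2, h3⟩⟩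
    · exact ⟨by exact_mod_cast h1, by exact_mod_cast h2⟩
    · exfalso; linarith
  · rintro ⟨h1, h2⟩
    refine ⟨by simp, Or.inl ⟨by exact_mod_cast h1, by exact_mod_cast h2, by linarith⟩⟩

/-- adjacency of a free vertex to the second family -/
theorem adj_second (t : Fin (24 * M) → Fin M × Fin M × Fin M) (j : Fin (24 * M))
    (i : Fin (3 * M)) : (graph M t).Adj (Sum.inr j) (Sum.inl (Sum.inr i)) ↔
      (t j).1.val < i.val ∧ i.val ≤ M + (t j).2.1.val := by
  have hb : (0 : ℝ) ≤ (big M : ℝ) := Nat.cast_nonneg _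
  have hp1 : (0 : ℝ) < ((pos M (M + (t j).2.1.val) j : ℕ) : ℝ) := by
    have : 0 < pos M (M + (t j).2.1.val) j := by unfold pos; omega
    exact_mod_cast this
  have hp2 : (0 : ℝ) < ((pos M (t j).1.val j : ℕ) : ℝ) := by
    have : 0 < pos M (t j).1.val j := by unfold pos; omega
    exact_mod_cast this
  unfold graph VetoIntervals.Joined
  simp only [rep, Sum.elim_inl, Sum.elim_inr]
  rw [← lt_pos_iff M (t j).1.val i.val j, ← pos_lt_iff M (M + (t j).2.1.val) i.val j]
  constructor
  · rintro ⟨-, ⟨h1, h2, h3⟩ | ⟨h1, h2, h3⟩⟩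
    · exfalso; linarith
    · constructor
      · -- l < i * sp + 1/2 gives l ≤ i * sp, and they differ
        by_contra hcon
        push Not at hcon
        have hne : pos M (t j).1.val j ≠ i.val * sp M := by
          intro he
          have e1 := lt_pos_iff M (t j).1.val i.val j
          have e2 := pos_lt_iff M (t j).1.val i.val j
          omega
        have h4 : i.val * sp M + 1 ≤ pos M (t j).1.val j := by omega
        have h5 : ((i.val * sp M : ℕ) : ℝ) + 1 ≤ ((pos M (t j).1.val j : ℕ) : ℝ) := by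
          exact_mod_cast h4
        linarith
      · have h4 : ((i.val * sp M : ℕ) : ℝ) < ((pos M (M + (t j).2.1.val) j : ℕ) : ℝ) := by
          linarith
        exact_mod_cast h4
  · rintro ⟨h1, h2⟩
    refine ⟨by simp, Or.inr ⟨by linarith, ?_, ?_⟩⟩
    · have : ((pos M (t j).1.val j : ℕ) : ℝ) < ((i.val * sp M : ℕ) : ℝ) := by exact_mod_cast h1
      linarith
    · have h3 : i.val * sp M + 1 ≤ pos M (M + (t j).2.1.val) j := h2
      have : ((i.val * sp M : ℕ) : ℝ) + 1 ≤ ((pos M (M + (t j).2.1.val) j : ℕ) : ℝ) := by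
        exact_mod_cast h3
      linarith

theorem graph_inj : Function.Injective (graph M) := by
  intro t t' h
  funext j
  have hf : ∀ i : Fin (3 * M), (M + (t j).2.1.val < i.val ∧ i.val ≤ 2 * M + (t j).2.2.val) ↔
      (M + (t' j).2.1.val < i.val ∧ i.val ≤ 2 * M + (t' j).2.2.val) := by
    intro i
    rw [← adj_first, ← adj_first, h]
  have hs : ∀ i : Fin (3 * M), ((t j).1.val < i.val ∧ i.val ≤ M + (t j).2.1.val) ↔
      ((t' j).1.val < i.val ∧ i.val ≤ M + (t' j).2.1.val) := by
    intro i
    rw [← adj_second, ← adj_second, h]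
  rcases htj : t j with ⟨⟨p, hp⟩, ⟨q, hq⟩, ⟨s, hs'⟩⟩
  rcases htj' : t' j with ⟨⟨p', hp'⟩, ⟨q', hq'⟩, ⟨s', hs''⟩⟩
  rw [htj, htj'] at hf hs
  simp only at hf hs
  have e1 : p = p' := by
    rcases lt_trichotomy p p' with hlt | heq | hgt
    · have := hs ⟨p + 1, by omega⟩
      simp only at this
      omega
    · exact heq
    · have := hs ⟨p' + 1, by omega⟩
      simp only at this
      omega
  have e2 : q = q' := by
    rcases lt_trichotomy q q' with hlt | heq | hgt
    · have := hf ⟨M + q + 1, by omega⟩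
      simp only at this
      omega
    · exact heq
    · have := hf ⟨M + q' + 1, by omega⟩
      simp only at this
      omega
  have e3 : s = s' := by
    rcases lt_trichotomy s s' with hlt | heq | hgt
    · have := hf ⟨2 * M + s + 1, by omega⟩
      simp only at this
      omega
    · exact heq
    · have := hf ⟨2 * M + s' + 1, by omega⟩
      simp only at this
      omega
  subst e1; subst e2; subst e3; rfl

end many

/-- **Positive answer to Q1**: some veto interval graph is not a midpoint veto interval graph. -/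
theorem result : ∃ (V : Type) (_ : Fintype V) (G : SimpleGraph V), IsVI G ∧ ¬ IsMVI G := by
  classical
  obtain ⟨M, hM⟩ : ∃ M : ℕ, M = 2 ^ 36 := ⟨_, rfl⟩
  have hM0 : 0 < M := by rw [hM]; positivity
  by_contra hno
  push Not at hno
  have hall : ∀ t, IsMVI (graph M t) := fun t => hno _ inferInstance _ (graph_vi M t)
  have h1 := count_mvi (graph M) (graph_inj M) hall
  have hd : Fintype.card (W M ⊕ W M) = 60 * M := by
    simp only [W, Fintype.card_sum, Fintype.card_fin]
    ring
  have hN : Fintype.card ((W M × W M) × Fin 3) = (45 * M) * (60 * M) := by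
    simp only [W, Fintype.card_prod, Fintype.card_sum, Fintype.card_fin]
    ring
  have hT : Fintype.card (Fin (24 * M) → Fin M × Fin M × Fin M) = M ^ (72 * M) := by
    rw [Fintype.card_fun, Fintype.card_prod, Fintype.card_prod, Fintype.card_fin,
      Fintype.card_fin]
    rw [show M * (M * M) = M ^ 3 by ring, ← pow_mul]
    congr 1
    ring
  rw [hd, hN, hT] at h1
  have h2 := Pool.Agent.R35.SignPatterns.sum_choose_le (60 * M) (45 * M) (by omega) (by omega)
  have h3 : ((M ^ (72 * M) : ℕ) : ℝ) ≤ (Real.exp 1 * ((45 * M : ℕ) : ℝ)) ^ (60 * M) := by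
    refine le_trans ?_ h2
    exact_mod_cast h1
  have h4 : Real.exp 1 * ((45 * M : ℕ) : ℝ) ≤ 128 * (M : ℝ) := by
    have he := Real.exp_one_lt_d9
    have hMr : (0 : ℝ) < M := by exact_mod_cast hM0
    push_cast
    nlinarith
  have h5 : ((M ^ (72 * M) : ℕ) : ℝ) ≤ (128 * (M : ℝ)) ^ (60 * M) :=
    h3.trans (pow_le_pow_left₀ (by positivity) h4 _)
  have h6 : M ^ (72 * M) ≤ (128 * M) ^ (60 * M) := by exact_mod_cast h5
  have h7 : (128 * M) ^ (60 * M) = 2 ^ (2580 * M) := by
    have : 128 * M = 2 ^ 43 := by rw [hM]; norm_num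
    rw [this, ← pow_mul]
    congr 1
    ring
  have h8 : M ^ (72 * M) = 2 ^ (2592 * M) := by
    conv_lhs => rw [hM]
    rw [← pow_mul, ← hM]
    congr 1
    ring
  rw [h7, h8] at h6
  have h9 := (Nat.pow_le_pow_iff_right (by norm_num : 1 < 2)).1 h6
  omega

end Pool.Agent.Results.MP_c8a11a_co.CountingSeparation
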